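import Mathlib
import Pool.Agent.TH310.Cor.ThinAll

/-!
# The corona theorem on the ball for arbitrary data which are controlled, off a thin set, by functions
from the closed algebra generated by the functions scaled continuous along complex geodesics

Let `B` be the unit ball of `ℂ^m` and let `A` be the uniform closure of the algebra generated by all
functions `h ∘ ψ`, where `ψ` is an automorphism of `B` and `h ∈ H^∞(B)` is scaled continuous along the
geodesic through `0` and some unit vector `p`, i.e. the functions `h ∘ mv p a`, `|a| < 1`, are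
equicontinuous at the points of the sphere orthogonal to `p` (`mv p a` translates the geodesic).
`A` is invariant under the automorphisms of `B`, and it contains the ball algebra (`mem_ball_algebra`),
all bounded holomorphic functions of one variable along all complex geodesics (`mem_one_variable`), and
the functions `H(⟨p, ψ z⟩ p + t (ψ z - ⟨p, ψ z⟩ p))`, `H ∈ H^∞(B)`, `t < 1` (`mem_tau`).

A subset `X` of `B` is thin if near every boundary point `p` it lies within bounded hyperbolic distance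
of the complex geodesic `B ∩ ℂ p`; let `T` be the union of the images of `X` under finitely many
automorphisms of `B` (for example the set of all points whose hyperbolic distance to the union of
finitely many given complex geodesics is at most `R`).

* `result`: let `f_1, …, f_N` be arbitrary corona data, `∑ |f_j| ≥ δ > 0` on `B`. Suppose that every
  boundary point `p` has a neighbourhood in which `c ≤ ∑_{j ∈ S} |f_j|` off `T`, where `f_j`, `j ∈ S`,
  differs near `p` from a function in `A` by at most `η < c / (2 |S|)` (`S`, `c`, `η` and the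
  approximations may depend on `p`). Then `∑ f_j g_j = 1` has a bounded solution.
* `arbitrary_data`: if `f_1, …, f_N` are arbitrary functions in `H^∞(B)`, `h_1, …, h_M ∈ A`,
  `∑ |f_j| + ∑ |h_i| ≥ δ > 0` on `B` and `∑ |h_i| ≥ c > 0` off `T`, then
  `∑ f_j g_j + ∑ h_i u_i = 1` has a bounded solution.

So no condition on the number of arbitrary functions is needed if they are only used on `T`. The proof
combines the solution of arbitrary corona data on thin sets (starting file `ThinSets`) with the local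
corona theorem for `A` and one arbitrary function (`Pool.Agent.TH310.Cor.closed`).
-/

set_option autoImplicit false

open Metric Set Filter Topology

namespace Pool.Agent.Results.MP_ca0fc2_an.ArbitraryOffThin

/-- `ℂ^m` with the Euclidean norm. -/
abbrev V (m : ℕ) := EuclideanSpace ℂ (Fin m)

/-- The automorphisms of the ball (`‖p‖ = 1`, `|a| < 1`) which translate the complex geodesic
through `0` and `p`: `⟨p, mv p a z⟩ = (⟨p, z⟩ + a) / (1 + conj a ⟨p, z⟩)`. -/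
noncomputable def mv {m : ℕ} (p : V m) (a : ℂ) (z : V m) : V m :=
  (1 / (1 + starRingEnd ℂ a * inner ℂ p z)) •
    (((inner ℂ p z : ℂ) + a) • p + ((√(1 - ‖a‖ ^ 2) : ℝ) : ℂ) • (z - (inner ℂ p z : ℂ) • p))

/-- `h` is scaled continuous along the geodesic of `p`: the functions `h ∘ mv p a`, `|a| < 1`, are
equicontinuous at all points `q` of the sphere orthogonal to `p`. -/
def Scaled {m : ℕ} (p : V m) (h : V m → ℂ) : Prop :=
  ∀ q : V m, ‖q‖ = 1 → (inner ℂ p q : ℂ) = 0 → ∀ ε : ℝ, 0 < ε → ∃ r : ℝ, 0 < r ∧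
    ∀ a ∈ ball (0 : ℂ) 1, ∀ z ∈ ball (0 : V m) 1, ∀ w ∈ ball (0 : V m) 1,
      ‖z - q‖ < r → ‖w - q‖ < r → ‖h (mv p a z) - h (mv p a w)‖ ≤ ε

/-- `ψ` is an automorphism of the ball, with inverse `φ`. -/
structure IsAut {m : ℕ} (ψ φ : V m → V m) : Prop where
  d1 : DifferentiableOn ℂ ψ (ball 0 1)
  d2 : DifferentiableOn ℂ φ (ball 0 1)
  m1 : MapsTo ψ (ball 0 1) (ball 0 1)
  m2 : MapsTo φ (ball 0 1) (ball 0 1)
  i1 : ∀ z ∈ ball (0 : V m) 1, φ (ψ z) = z
  i2 : ∀ z ∈ ball (0 : V m) 1, ψ (φ z) = z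

/-- `f` is holomorphic and bounded on the unit ball. -/
def Hinf {m : ℕ} (f : V m → ℂ) : Prop :=
  DifferentiableOn ℂ f (ball 0 1) ∧ ∃ M : ℝ, ∀ z ∈ ball (0 : V m) 1, ‖f z‖ ≤ M

/-- The functions which agree on the ball with `h ∘ ψ`, `ψ` an automorphism, `h ∈ H^∞(B)` scaled
continuous along some geodesic. -/
def Gen (m : ℕ) : Set (V m → ℂ) :=
  {u | ∃ (p : V m) (ψ φ : V m → V m) (h : V m → ℂ), ‖p‖ = 1 ∧ IsAut ψ φ ∧ Hinf h ∧ Scaled p h ∧
    ∀ z ∈ ball (0 : V m) 1, u z = h (ψ z)}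

/-- The uniform closure on the ball of the algebra generated by `Gen m`. -/
def A (m : ℕ) : Set (V m → ℂ) :=
  {f | ∀ ε : ℝ, 0 < ε → ∃ g ∈ Algebra.adjoin ℂ (Gen m), ∀ z ∈ ball (0 : V m) 1, ‖f z - g z‖ ≤ ε}

/-- `X` is thin: for every boundary point `p` there is `ρ < 1` such that near `p` the set `X` lies in
the neighbourhood of hyperbolic radius `artanh ρ` of the geodesic `{x p : |x| < 1}`. -/
def Thin {m : ℕ} (X : Set (V m)) : Prop :=
  X ⊆ ball 0 1 ∧ ∀ p : V m, ‖p‖ = 1 → ∃ ρ : ℝ, 0 ≤ ρ ∧ ρ < 1 ∧ ∀ᶠ z in 𝓝 p, z ∈ X →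
    ‖z - (inner ℂ p z : ℂ) • p‖ ^ 2 ≤ ρ ^ 2 * (1 - ‖(inner ℂ p z : ℂ)‖ ^ 2)

theorem aut_iff {m : ℕ} (ψ φ : V m → V m) : IsAut ψ φ ↔ Pool.Agent.TH310.Cor.Aut ψ φ :=
  ⟨fun h => ⟨h.d1, h.d2, h.m1, h.m2, h.i1, h.i2⟩, fun h => ⟨h.d1, h.d2, h.m1, h.m2, h.i1, h.i2⟩⟩

theorem gen_eq (m : ℕ) : Gen m = Pool.Agent.TH310.Cor.Gen m := by
  ext u
  constructor
  · rintro ⟨p, ψ, φ, h, h1, h2, h3, h4, h5⟩
    exact ⟨p, ψ, φ, h, h1, (aut_iff ψ φ).1 h2, h3, h4, h5⟩
  · rintro ⟨p, ψ, φ, h, h1, h2, h3, h4, h5⟩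
    exact ⟨p, ψ, φ, h, h1, (aut_iff ψ φ).2 h2, h3, h4, h5⟩

/-- **Corona theorem for data controlled by the closed algebra `A` off a thin set.** The functions
`f_j`, `j ∉ S`, are arbitrary. -/
theorem result (m N l : ℕ) (f : Fin N → V m → ℂ) (hf : ∀ j, Hinf (f j)) (δ : ℝ) (hδ : 0 < δ)
    (hlow : ∀ z ∈ ball (0 : V m) 1, δ ≤ ∑ j, ‖f j z‖)
    (X : Set (V m)) (hX : Thin X) (ψ φ : Fin l → V m → V m) (hψ : ∀ i, IsAut (ψ i) (φ i))
    (hloc : ∀ p : V m, ‖p‖ = 1 → ∃ (S : Finset (Fin N)) (c η : ℝ), 0 ≤ η ∧ 2 * S.card * η < c ∧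
      (∀ j ∈ S, ∃ h ∈ A m, ∀ᶠ z in 𝓝[ball 0 1] p, ‖f j z - h z‖ ≤ η) ∧
      ∀ᶠ z in 𝓝[ball 0 1] p, (∀ i, z ∉ ψ i '' X) → c ≤ ∑ j ∈ S, ‖f j z‖) :
    ∃ g : Fin N → V m → ℂ, (∀ j, Hinf (g j)) ∧
      ∀ z ∈ ball (0 : V m) 1, ∑ j, f j z * g j z = 1 := by
  have h1 : A m = Pool.Agent.TH310.Cor.Cl m := by
    unfold A Pool.Agent.TH310.Cor.Cl
    rw [gen_eq]
  rw [h1] at hloc
  obtain ⟨g, h2, ⟨C, h3⟩, h4⟩ := Pool.Agent.TH310.Cor.thin_closed m N l f δ hδ hf hlow X hX ψ φ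
    (fun j => ⟨(hψ j).d1, (hψ j).d2, (hψ j).m1, (hψ j).m2, (hψ j).i1, (hψ j).i2⟩)
    (fun p hp => by
      obtain ⟨S, c, η, a, b, c', d⟩ := hloc p hp
      exact ⟨S, c, η, a, b, c', Or.inr d⟩)
  exact ⟨g, fun j => ⟨h2 j, C, h3 j⟩, h4⟩

/-- Arbitrary functions `f_j` together with functions `h_i ∈ A` which are bounded below off the
images of a thin set. -/
theorem arbitrary_data (m N M l : ℕ) (f : Fin N → V m → ℂ) (h : Fin M → V m → ℂ)
    (hf : ∀ j, Hinf (f j)) (hh : ∀ j, Hinf (h j)) (hA : ∀ j, h j ∈ A m) (δ c : ℝ) (hδ : 0 < δ)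
    (hc : 0 < c) (hlow : ∀ z ∈ ball (0 : V m) 1, δ ≤ ∑ j, ‖f j z‖ + ∑ j, ‖h j z‖)
    (X : Set (V m)) (hX : Thin X) (ψ φ : Fin l → V m → V m) (hψ : ∀ i, IsAut (ψ i) (φ i))
    (hT : ∀ z ∈ ball (0 : V m) 1, (∀ i, z ∉ ψ i '' X) → c ≤ ∑ j, ‖h j z‖) :
    ∃ (g : Fin N → V m → ℂ) (u : Fin M → V m → ℂ), (∀ j, Hinf (g j)) ∧ (∀ j, Hinf (u j)) ∧
      ∀ z ∈ ball (0 : V m) 1, ∑ j, f j z * g j z + ∑ j, h j z * u j z = 1 := by
  obtain ⟨g, hg, hid⟩ := result m (N + M) l (Fin.append f h)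
    (by
      intro j
      refine Fin.addCases (fun j => ?_) (fun j => ?_) j
      · rw [Fin.append_left]; exact hf j
      · rw [Fin.append_right]; exact hh j) δ hδ
    (by
      intro z hz
      rw [Fin.sum_univ_add]
      simp only [Fin.append_left, Fin.append_right]
      exact hlow z hz) X hX ψ φ hψ
    (by
      intro p _
      refine ⟨Finset.univ.map (Fin.natAddEmb N), c, 0, le_rfl, by simpa using hc, ?_, ?_⟩
      · intro j hj
        obtain ⟨i, -, rfl⟩ := Finset.mem_map.1 hj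
        refine ⟨h i, hA i, Filter.Eventually.of_forall fun z => ?_⟩
        simp
      · filter_upwards [self_mem_nhdsWithin] with z hz hzT
        rw [Finset.sum_map]
        simpa using hT z hz hzT)
  refine ⟨fun j => g (Fin.castAdd M j), fun j => g (Fin.natAdd N j), fun j => hg _, fun j => hg _,
    fun z hz => ?_⟩
  have h1 := hid z hz
  rw [Fin.sum_univ_add] at h1
  simpa using h1

theorem mem_of_gen {m : ℕ} {u : V m → ℂ} (h : u ∈ Gen m) : u ∈ A m :=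
  fun ε hε => ⟨u, Algebra.subset_adjoin h, fun z _ => by rw [sub_self, norm_zero]; exact hε.le⟩

/-- `A` contains the ball algebra. -/
theorem mem_ball_algebra (m : ℕ) (hm : 0 < m) (f : V m → ℂ) (hf : DifferentiableOn ℂ f (ball 0 1))
    (hc : UniformContinuousOn f (ball 0 1)) (hb : ∃ M : ℝ, ∀ z ∈ ball (0 : V m) 1, ‖f z‖ ≤ M) :
    f ∈ A m := by
  have hp : ‖(EuclideanSpace.single ⟨0, hm⟩ (1 : ℂ) : V m)‖ = 1 := by simp
  obtain ⟨p, hpdef⟩ : ∃ p : V m, p = EuclideanSpace.single ⟨0, hm⟩ (1 : ℂ) := ⟨_, rfl⟩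
  rw [← hpdef] at hp
  refine mem_of_gen ⟨p, fun z => z, fun z => z, f, hp, ⟨differentiableOn_id, differentiableOn_id,
    fun z hz => hz, fun z hz => hz, fun z _ => rfl, fun z _ => rfl⟩, ⟨hf, hb⟩, ?_, fun z _ => rfl⟩
  intro q hq hpq ε hε
  rw [Metric.uniformContinuousOn_iff_le] at hc
  obtain ⟨δ, hδ, h1⟩ := hc ε hε
  refine ⟨min (1 / 2) (δ / 20), by positivity, fun a ha z hz w hw hzq hwq => ?_⟩
  obtain ⟨-, hm1, -, -, -⟩ := Pool.Agent.W732.Cor.t_mv m p hp a ha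
  have h2 := h1 _ (hm1 hz) _ (hm1 hw) ?_
  · rw [dist_eq_norm] at h2
    exact h2
  · rw [dist_eq_norm]
    have hin : ∀ y : V m, ‖y - q‖ < min (1 / 2) (δ / 20) → ‖(inner ℂ p y : ℂ)‖ ≤ 1 / 2 := by
      intro y hy
      have h2 : (inner ℂ p y : ℂ) = inner ℂ p (y - q) := by rw [inner_sub_right, hpq, sub_zero]
      rw [h2]
      calc ‖(inner ℂ p (y - q) : ℂ)‖ ≤ ‖p‖ * ‖y - q‖ := norm_inner_le_norm _ _
        _ = ‖y - q‖ := by rw [hp, one_mul]
        _ ≤ 1 / 2 := (hy.trans_le (min_le_left _ _)).le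
    rw [mem_ball_zero_iff] at ha hz hw
    have h3 := Pool.Agent.TH310.Cor.mv_lip hp (a := a) (c := 0) ha (by simp) hz.le hw.le (hin z hzq)
      (hin w hwq)
    rw [Pool.Agent.TH310.Cor.mv_zero, Pool.Agent.TH310.Cor.mv_zero] at h3
    have h4 : ‖z - w‖ ≤ δ / 10 := by
      have h5 : z - w = (z - q) - (w - q) := by module
      rw [h5]
      have h6 := norm_sub_le (z - q) (w - q)
      have h7 := hzq.trans_le (min_le_right _ _)
      have h8 := hwq.trans_le (min_le_right _ _)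
      linarith
    change ‖Pool.Agent.W732.Cor.mv p a z - Pool.Agent.W732.Cor.mv p a w‖ ≤ δ
    linarith

/-- `A` contains the functions `H(⟨p, ψ z⟩ p + t (ψ z - ⟨p, ψ z⟩ p))`, `t < 1`, `H ∈ H^∞(B)`. -/
theorem mem_tau (m : ℕ) (p : V m) (hp : ‖p‖ = 1) (t : ℝ) (ht0 : 0 ≤ t) (ht1 : t < 1)
    (ψ φ : V m → V m) (hψ : IsAut ψ φ) (H : V m → ℂ) (hH : Hinf H) :
    (fun z => H ((inner ℂ p (ψ z) : ℂ) • p + (t : ℂ) • (ψ z - (inner ℂ p (ψ z) : ℂ) • p))) ∈ A m := by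
  have hmaps : MapsTo (Pool.Agent.W732.Cor.tau p t) (ball (0 : V m) 1) (ball 0 1) := by
    intro z hz
    rw [mem_ball_zero_iff] at hz ⊢
    exact Pool.Agent.W732.Cor.tau_mem p z hp ht0 ht1.le hz
  obtain ⟨hd, M, hM⟩ := hH
  refine mem_of_gen ⟨p, ψ, φ, fun z => H (Pool.Agent.W732.Cor.tau p t z), hp, hψ,
    ⟨hd.comp (Pool.Agent.W732.Cor.tau_diff p t).differentiableOn hmaps, M,
      fun z hz => hM _ (hmaps hz)⟩, ?_, fun z _ => rfl⟩
  exact Pool.Agent.W732.Cor.SC_tau Pool.Agent.W732.Cor.t_sc2 hp ht0 ht1 hd hM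

/-- `A` contains all bounded holomorphic functions of one variable along all complex geodesics. -/
theorem mem_one_variable (m : ℕ) (p : V m) (hp : ‖p‖ = 1) (ψ φ : V m → V m) (hψ : IsAut ψ φ)
    (h : ℂ → ℂ) (hd : DifferentiableOn ℂ h (ball 0 1)) (hb : ∃ M : ℝ, ∀ x ∈ ball (0 : ℂ) 1, ‖h x‖ ≤ M) :
    (fun z => h (inner ℂ p (ψ z))) ∈ A m := by
  have hmaps : MapsTo (fun z : V m => (inner ℂ p z : ℂ)) (ball 0 1) (ball 0 1) := by
    intro z hz
    rw [mem_ball_zero_iff]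
    exact Pool.Agent.W721.Cor.Mv.inner_lt hp hz
  obtain ⟨M, hM⟩ := hb
  exact mem_of_gen ⟨p, ψ, φ, fun z => h (inner ℂ p z), hp, hψ,
    ⟨hd.comp (innerSL ℂ p).differentiable.differentiableOn hmaps, M, fun z hz => hM _ (hmaps hz)⟩,
    Pool.Agent.W732.Cor.t_sc1 m p hp h hd ⟨M, hM⟩, fun z _ => rfl⟩

end Pool.Agent.Results.MP_ca0fc2_an.ArbitraryOffThin
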