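import Mathlib
import Pool.Agent.TH310.Cor.ClAlg
import Pool.Agent.W732.Cor.All

/-!
# The corona theorem on the ball for functions from the closed algebra generated by the functions which
are scaled continuous along complex geodesics, and one arbitrary function, locally at the boundary

Let `B` be the unit ball of `ℂ^m` and let `A` be the uniform closure of the algebra generated by all
functions `h ∘ ψ`, where `ψ` is an automorphism of `B` and `h ∈ H^∞(B)` is scaled continuous along the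
geodesic through `0` and some unit vector `p`, i.e. the functions `h ∘ mv p a`, `|a| < 1`, are
equicontinuous at the points of the sphere orthogonal to `p` (`mv p a` translates the geodesic).
`A` is invariant under the automorphisms of `B`, and it contains the ball algebra (`mem_ball_algebra`),
all bounded holomorphic functions of one variable along all complex geodesics (`mem_one_variable`), and
the functions `H(⟨p, ψ z⟩ p + t (ψ z - ⟨p, ψ z⟩ p))`, `H ∈ H^∞(B)`, `t < 1` (`mem_tau`).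

* `closed_algebra`: if `f_1, …, f_N ∈ A`, `G ∈ H^∞(B)` and `∑ |f_j| + |G| ≥ δ > 0`, then
  `∑ f_j g_j + G g_0 = 1` has a bounded solution.
* `result`: it is enough that `f_1, …, f_N ∈ H^∞(B)` have no common zero and that every boundary point
  `p` has a neighbourhood in which `c ≤ |f_k| + ∑_{j ∈ S} |f_j|` where, for `j ∈ S`, `f_j` differs near
  `p` from a function in `A` by at most `η < c / (2 |S|)`; the arbitrary function `f_k`, the set `S`
  and the approximations may depend on `p`.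

The proof uses the uniform corona theorem for `k` complex geodesics (`Pool.Agent.TH310.Cor.main`, see
`ManyGeodesics`): a character `χ` of `H^∞(B)` over `p` which annihilates all `f_j` annihilates `f_k`,
`1 - ⟨p, z⟩` and `u_l - χ(u_l)` for finitely many generators `u_l`, and these are corona data of the
kind considered there.
-/

set_option autoImplicit false

open Metric Set Filter Topology

namespace Pool.Agent.Results.MP_ca0fc2_an.ClosedAlgebra

/-- `ℂ^m` with the Euclidean norm. -/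
abbrev V (m : ℕ) := EuclideanSpace ℂ (Fin m)

/-- The automorphisms of the ball (`‖p‖ = 1`, `|a| < 1`) which translate the complex geodesic
through `0` and `p`: `⟨p, mv p a z⟩ = (⟨p, z⟩ + a) / (1 + conj a ⟨p, z⟩)`. -/
noncomputable def mv {m : ℕ} (p : V m) (a : ℂ) (z : V m) : V m :=
  (1 / (1 + starRingEnd ℂ a * inner ℂ p z)) •
    (((inner ℂ p z : ℂ) + a) • p + ((√(1 - ‖a‖ ^ 2) : ℝ) : ℂ) • (z - (inner ℂ p z : ℂ) • p))

/-- `h` is scaled continuous along the geodesic of `p`: the functions `h ∘ mv p a`, `|a| < 1`, are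
equicontinuous at all points `q` of the sphere orthogonal to `p`. -/
def Scaled {m : ℕ} (p : V m) (h : V m → ℂ) : Prop :=
  ∀ q : V m, ‖q‖ = 1 → (inner ℂ p q : ℂ) = 0 → ∀ ε : ℝ, 0 < ε → ∃ r : ℝ, 0 < r ∧
    ∀ a ∈ ball (0 : ℂ) 1, ∀ z ∈ ball (0 : V m) 1, ∀ w ∈ ball (0 : V m) 1,
      ‖z - q‖ < r → ‖w - q‖ < r → ‖h (mv p a z) - h (mv p a w)‖ ≤ ε

/-- `ψ` is an automorphism of the ball, with inverse `φ`. -/
structure IsAut {m : ℕ} (ψ φ : V m → V m) : Prop where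
  d1 : DifferentiableOn ℂ ψ (ball 0 1)
  d2 : DifferentiableOn ℂ φ (ball 0 1)
  m1 : MapsTo ψ (ball 0 1) (ball 0 1)
  m2 : MapsTo φ (ball 0 1) (ball 0 1)
  i1 : ∀ z ∈ ball (0 : V m) 1, φ (ψ z) = z
  i2 : ∀ z ∈ ball (0 : V m) 1, ψ (φ z) = z

/-- `f` is holomorphic and bounded on the unit ball. -/
def Hinf {m : ℕ} (f : V m → ℂ) : Prop :=
  DifferentiableOn ℂ f (ball 0 1) ∧ ∃ M : ℝ, ∀ z ∈ ball (0 : V m) 1, ‖f z‖ ≤ M

/-- The functions which agree on the ball with `h ∘ ψ`, `ψ` an automorphism, `h ∈ H^∞(B)` scaled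
continuous along some geodesic. -/
def Gen (m : ℕ) : Set (V m → ℂ) :=
  {u | ∃ (p : V m) (ψ φ : V m → V m) (h : V m → ℂ), ‖p‖ = 1 ∧ IsAut ψ φ ∧ Hinf h ∧ Scaled p h ∧
    ∀ z ∈ ball (0 : V m) 1, u z = h (ψ z)}

/-- The uniform closure on the ball of the algebra generated by `Gen m`. -/
def A (m : ℕ) : Set (V m → ℂ) :=
  {f | ∀ ε : ℝ, 0 < ε → ∃ g ∈ Algebra.adjoin ℂ (Gen m), ∀ z ∈ ball (0 : V m) 1, ‖f z - g z‖ ≤ ε}

theorem aut_iff {m : ℕ} (ψ φ : V m → V m) : IsAut ψ φ ↔ Pool.Agent.TH310.Cor.Aut ψ φ :=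
  ⟨fun h => ⟨h.d1, h.d2, h.m1, h.m2, h.i1, h.i2⟩, fun h => ⟨h.d1, h.d2, h.m1, h.m2, h.i1, h.i2⟩⟩

theorem gen_eq (m : ℕ) : Gen m = Pool.Agent.TH310.Cor.Gen m := by
  ext u
  constructor
  · rintro ⟨p, ψ, φ, h, h1, h2, h3, h4, h5⟩
    exact ⟨p, ψ, φ, h, h1, (aut_iff ψ φ).1 h2, h3, h4, h5⟩
  · rintro ⟨p, ψ, φ, h, h1, h2, h3, h4, h5⟩
    exact ⟨p, ψ, φ, h, h1, (aut_iff ψ φ).2 h2, h3, h4, h5⟩

/-- **Local corona theorem for the closed algebra `A` and one arbitrary function.** -/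
theorem result (m N : ℕ) (f : Fin N → V m → ℂ) (hf : ∀ j, Hinf (f j))
    (h0 : ∀ z ∈ ball (0 : V m) 1, ∃ j, f j z ≠ 0)
    (hloc : ∀ p : V m, ‖p‖ = 1 → ∃ (k : Fin N) (S : Finset (Fin N)) (c η : ℝ), 0 ≤ η ∧
      2 * S.card * η < c ∧ (∀ᶠ z in 𝓝[ball 0 1] p, c ≤ ‖f k z‖ + ∑ j ∈ S, ‖f j z‖) ∧
      ∀ j ∈ S, ∃ h ∈ A m, ∀ᶠ z in 𝓝[ball 0 1] p, ‖f j z - h z‖ ≤ η) :
    ∃ g : Fin N → V m → ℂ, (∀ j, DifferentiableOn ℂ (g j) (ball 0 1)) ∧
      (∃ C : ℝ, ∀ j, ∀ z ∈ ball (0 : V m) 1, ‖g j z‖ ≤ C) ∧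
      ∀ z ∈ ball (0 : V m) 1, ∑ j, f j z * g j z = 1 := by
  have h1 : A m = Pool.Agent.TH310.Cor.Cl m := by
    unfold A Pool.Agent.TH310.Cor.Cl
    rw [gen_eq]
  rw [h1] at hloc
  exact Pool.Agent.TH310.Cor.closed Pool.Agent.W732.Cor.t_mv Pool.Agent.W732.Cor.t_ball
    Pool.Agent.W732.Cor.t_uni f hf h0 hloc

/-- The global case: `N` functions from `A` and one arbitrary function. -/
theorem closed_algebra (m N : ℕ) (f : Fin N → V m → ℂ) (G : V m → ℂ) (hf : ∀ j, Hinf (f j))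
    (hG : Hinf G) (hA : ∀ j, f j ∈ A m) (δ : ℝ) (hδ : 0 < δ)
    (hlow : ∀ z ∈ ball (0 : V m) 1, δ ≤ ∑ j, ‖f j z‖ + ‖G z‖) :
    ∃ (g : Fin N → V m → ℂ) (g₀ : V m → ℂ), (∀ j, Hinf (g j)) ∧ Hinf g₀ ∧
      ∀ z ∈ ball (0 : V m) 1, ∑ j, f j z * g j z + G z * g₀ z = 1 := by
  obtain ⟨g, hg, ⟨C, hC⟩, hid⟩ := result m (N + 1) (Fin.snoc (α := fun _ => V m → ℂ) f G)
    (by
      intro j
      refine Fin.lastCases ?_ (fun j => ?_) j
      · simpa using hG
      · simpa using hf j)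
    (by
      intro z hz
      by_contra hcon
      push Not at hcon
      have h1 := hlow z hz
      have h2 : ∀ j, f j z = 0 := by
        intro j
        have := hcon j.castSucc
        simpa using this
      have h3 : G z = 0 := by
        have := hcon (Fin.last N)
        simpa using this
      rw [h3, norm_zero, add_zero, Finset.sum_eq_zero (fun j _ => by rw [h2 j, norm_zero])] at h1
      linarith)
    (by
      intro p _
      refine ⟨Fin.last N, Finset.univ.map Fin.castSuccEmb, δ, 0, le_rfl, by simpa using hδ, ?_, ?_⟩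
      · filter_upwards [self_mem_nhdsWithin] with z hz
        have h1 := hlow z hz
        rw [Finset.sum_map]
        simp only [Fin.snoc_last, Fin.coe_castSuccEmb, Fin.snoc_castSucc]
        linarith
      · intro j hj
        obtain ⟨i, -, rfl⟩ := Finset.mem_map.1 hj
        refine ⟨f i, hA i, ?_⟩
        filter_upwards with z
        simp)
  refine ⟨fun j => g j.castSucc, g (Fin.last N), fun j => ⟨hg _, C, hC _⟩, ⟨hg _, C, hC _⟩,
    fun z hz => ?_⟩
  have h1 := hid z hz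
  rw [Fin.sum_univ_castSucc] at h1
  simpa using h1

theorem mem_of_gen {m : ℕ} {u : V m → ℂ} (h : u ∈ Gen m) : u ∈ A m :=
  fun ε hε => ⟨u, Algebra.subset_adjoin h, fun z _ => by rw [sub_self, norm_zero]; exact hε.le⟩

/-- `A` contains the ball algebra. -/
theorem mem_ball_algebra (m : ℕ) (hm : 0 < m) (f : V m → ℂ) (hf : DifferentiableOn ℂ f (ball 0 1))
    (hc : UniformContinuousOn f (ball 0 1)) (hb : ∃ M : ℝ, ∀ z ∈ ball (0 : V m) 1, ‖f z‖ ≤ M) :
    f ∈ A m := by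
  have hp : ‖(EuclideanSpace.single ⟨0, hm⟩ (1 : ℂ) : V m)‖ = 1 := by simp
  obtain ⟨p, hpdef⟩ : ∃ p : V m, p = EuclideanSpace.single ⟨0, hm⟩ (1 : ℂ) := ⟨_, rfl⟩
  rw [← hpdef] at hp
  refine mem_of_gen ⟨p, fun z => z, fun z => z, f, hp, ⟨differentiableOn_id, differentiableOn_id,
    fun z hz => hz, fun z hz => hz, fun z _ => rfl, fun z _ => rfl⟩, ⟨hf, hb⟩, ?_, fun z _ => rfl⟩
  intro q hq hpq ε hε
  rw [Metric.uniformContinuousOn_iff_le] at hc
  obtain ⟨δ, hδ, h1⟩ := hc ε hε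
  refine ⟨min (1 / 2) (δ / 20), by positivity, fun a ha z hz w hw hzq hwq => ?_⟩
  obtain ⟨-, hm1, -, -, -⟩ := Pool.Agent.W732.Cor.t_mv m p hp a ha
  have h2 := h1 _ (hm1 hz) _ (hm1 hw) ?_
  · rw [dist_eq_norm] at h2
    exact h2
  · rw [dist_eq_norm]
    have hin : ∀ y : V m, ‖y - q‖ < min (1 / 2) (δ / 20) → ‖(inner ℂ p y : ℂ)‖ ≤ 1 / 2 := by
      intro y hy
      have h2 : (inner ℂ p y : ℂ) = inner ℂ p (y - q) := by rw [inner_sub_right, hpq, sub_zero]
      rw [h2]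
      calc ‖(inner ℂ p (y - q) : ℂ)‖ ≤ ‖p‖ * ‖y - q‖ := norm_inner_le_norm _ _
        _ = ‖y - q‖ := by rw [hp, one_mul]
        _ ≤ 1 / 2 := (hy.trans_le (min_le_left _ _)).le
    rw [mem_ball_zero_iff] at ha hz hw
    have h3 := Pool.Agent.TH310.Cor.mv_lip hp (a := a) (c := 0) ha (by simp) hz.le hw.le (hin z hzq)
      (hin w hwq)
    rw [Pool.Agent.TH310.Cor.mv_zero, Pool.Agent.TH310.Cor.mv_zero] at h3
    have h4 : ‖z - w‖ ≤ δ / 10 := by
      have h5 : z - w = (z - q) - (w - q) := by module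
      rw [h5]
      have h6 := norm_sub_le (z - q) (w - q)
      have h7 := hzq.trans_le (min_le_right _ _)
      have h8 := hwq.trans_le (min_le_right _ _)
      linarith
    change ‖Pool.Agent.W732.Cor.mv p a z - Pool.Agent.W732.Cor.mv p a w‖ ≤ δ
    linarith

/-- `A` contains the functions `H(⟨p, ψ z⟩ p + t (ψ z - ⟨p, ψ z⟩ p))`, `t < 1`, `H ∈ H^∞(B)`. -/
theorem mem_tau (m : ℕ) (p : V m) (hp : ‖p‖ = 1) (t : ℝ) (ht0 : 0 ≤ t) (ht1 : t < 1)
    (ψ φ : V m → V m) (hψ : IsAut ψ φ) (H : V m → ℂ) (hH : Hinf H) :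
    (fun z => H ((inner ℂ p (ψ z) : ℂ) • p + (t : ℂ) • (ψ z - (inner ℂ p (ψ z) : ℂ) • p))) ∈ A m := by
  have hmaps : MapsTo (Pool.Agent.W732.Cor.tau p t) (ball (0 : V m) 1) (ball 0 1) := by
    intro z hz
    rw [mem_ball_zero_iff] at hz ⊢
    exact Pool.Agent.W732.Cor.tau_mem p z hp ht0 ht1.le hz
  obtain ⟨hd, M, hM⟩ := hH
  refine mem_of_gen ⟨p, ψ, φ, fun z => H (Pool.Agent.W732.Cor.tau p t z), hp, hψ,
    ⟨hd.comp (Pool.Agent.W732.Cor.tau_diff p t).differentiableOn hmaps, M,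
      fun z hz => hM _ (hmaps hz)⟩, ?_, fun z _ => rfl⟩
  exact Pool.Agent.W732.Cor.SC_tau Pool.Agent.W732.Cor.t_sc2 hp ht0 ht1 hd hM

/-- `A` contains all bounded holomorphic functions of one variable along all complex geodesics. -/
theorem mem_one_variable (m : ℕ) (p : V m) (hp : ‖p‖ = 1) (ψ φ : V m → V m) (hψ : IsAut ψ φ)
    (h : ℂ → ℂ) (hd : DifferentiableOn ℂ h (ball 0 1)) (hb : ∃ M : ℝ, ∀ x ∈ ball (0 : ℂ) 1, ‖h x‖ ≤ M) :
    (fun z => h (inner ℂ p (ψ z))) ∈ A m := by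
  have hmaps : MapsTo (fun z : V m => (inner ℂ p z : ℂ)) (ball 0 1) (ball 0 1) := by
    intro z hz
    rw [mem_ball_zero_iff]
    exact Pool.Agent.W721.Cor.Mv.inner_lt hp hz
  obtain ⟨M, hM⟩ := hb
  exact mem_of_gen ⟨p, ψ, φ, fun z => h (inner ℂ p z), hp, hψ,
    ⟨hd.comp (innerSL ℂ p).differentiable.differentiableOn hmaps, M, fun z hz => hM _ (hmaps hz)⟩,
    Pool.Agent.W732.Cor.t_sc1 m p hp h hd ⟨M, hM⟩, fun z _ => rfl⟩

end Pool.Agent.Results.MP_ca0fc2_an.ClosedAlgebra
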