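import Mathlib
import Pool.Agent.TH223.Tr.Leaf
import Pool.Agent.W732.Cor.All

/-!
# Iterated Whitney localisation of the corona problem on the ball

`B` is the unit ball of `ℂ^m`, `p` a unit vector, `mv p a` (`|a| < 1`) the automorphisms of `B` which
translate the complex geodesic `Γ` through `0` and `p`. The sets `mv p a (B ∩ ball q ρ)`, `q` a unit
vector orthogonal to `p`, are the Whitney cells of `B` relative to the end circle of `Γ`; they cover `B`
up to a tube (the points at bounded hyperbolic distance from `Γ`). We subdivide `B` into neighbourhoods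
of boundary points or into the Whitney cells along some complex geodesic, each part again in the
same way (in its own coordinates; the geodesic may depend on the cell), and so on.

`result`: arbitrary corona data `f_1, …, f_N` on `B` have solutions, bounded by a constant which depends
only on `m`, `N`, `δ` and the geometry of the subdivision (a well-founded tree `T`), if on each final
cell

* one function `f_i`, which may depend on the cell, and some of the other functions, `f_j`, `j ∈ S`, are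
  enough: `δ ≤ |f_i| + ∑_{j ∈ S} |f_j|`, and
* the functions `f_j`, `j ∈ S`, are controlled on the cell by `k` functions `u_l ∘ ψ_l`, which may depend
  on the cell, with arbitrary automorphisms `ψ_l` of `B` and `u_l` scaled continuous along the geodesic
  (with a fixed modulus): `|f_j(z) - f_j(w)| ≤ δ / (4 N)` if the `u_l ∘ ψ_l` differ by at most `ω` at
  `z`, `w`.

There is no condition on `f_i` on its final cells, no compatibility between the cells, and no condition at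
all, other than `∑ |f_j| ≥ δ`, at the points which lie in no final cell. These points may form a tube
around a complex geodesic in `B`, a tube in each Whitney cell along this geodesic, a tube in each Whitney
cell along each of these geodesics, and so on, so infinitely many tubes in general.

`ManyGeodesics` is the case of a tree without subdivision; cells of one generation with `S = ∅`, `k = 0`
are the criterion `cellwise` of `WhitneyLocalization`. `thin_set` is the example of a subdivision of two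
generations: no condition on a set `X` which is thin in the sense of `ThinSets` (near each boundary point
`b` it is contained in a tube around the geodesic through `0` and `b`).

Proof: by induction over the tree, for families of data together with auxiliary functions which are
scaled continuous along geodesics and not all small outside of the cell. At a node, slice localisation
gives a character of the algebra of bounded families which annihilates the transported data and lies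
over a point `q` orthogonal to `p`; the function `1 - ⟨q, z⟩` joins the auxiliary functions. At a leaf
the family of all data splits according to whether `f_j` is small where the `u_l ∘ ψ_l` are close to
their values at the character; `k + K` geodesics and one arbitrary function remain.
-/

set_option autoImplicit false

open Metric Set Filter Topology

namespace Pool.Agent.Results.MP_ca0fc2_an.IteratedLocalization

/-- `ℂ^m` with the Euclidean norm. -/
abbrev V (m : ℕ) := EuclideanSpace ℂ (Fin m)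

/-- The automorphisms of the ball (`‖p‖ = 1`, `|a| < 1`) which translate the complex geodesic
through `0` and `p`: `⟨p, mv p a z⟩ = (⟨p, z⟩ + a) / (1 + conj a ⟨p, z⟩)`. -/
noncomputable def mv {m : ℕ} (p : V m) (a : ℂ) (z : V m) : V m :=
  (1 / (1 + starRingEnd ℂ a * inner ℂ p z)) •
    (((inner ℂ p z : ℂ) + a) • p + ((√(1 - ‖a‖ ^ 2) : ℝ) : ℂ) • (z - (inner ℂ p z : ℂ) • p))

/-- `h` is scaled continuous along the geodesic of `p`, with modulus `r`: the functions
`h ∘ mv p a`, `|a| < 1`, are equicontinuous at all points `q` of the sphere orthogonal to `p`. -/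
def Scaled {m : ℕ} (p : V m) (r : V m → ℝ → ℝ) (h : V m → ℂ) : Prop :=
  ∀ q : V m, ‖q‖ = 1 → (inner ℂ p q : ℂ) = 0 → ∀ ε : ℝ, 0 < ε →
    ∀ a ∈ ball (0 : ℂ) 1, ∀ z ∈ ball (0 : V m) 1, ∀ w ∈ ball (0 : V m) 1,
      ‖z - q‖ < r q ε → ‖w - q‖ < r q ε → ‖h (mv p a z) - h (mv p a w)‖ ≤ ε

/-- `ψ` is an automorphism of the ball, with inverse `φ`. -/
structure IsAut {m : ℕ} (ψ φ : V m → V m) : Prop where
  d1 : DifferentiableOn ℂ ψ (ball 0 1)
  d2 : DifferentiableOn ℂ φ (ball 0 1)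
  m1 : MapsTo ψ (ball 0 1) (ball 0 1)
  m2 : MapsTo φ (ball 0 1) (ball 0 1)
  i1 : ∀ z ∈ ball (0 : V m) 1, φ (ψ z) = z
  i2 : ∀ z ∈ ball (0 : V m) 1, ψ (φ z) = z

/-- The parameters of a subdivision. A leaf (no subdivision) carries the number `k` of controlling
functions, their modulus `r` of scaled continuity, and the tolerance `ω`. The node `near` carries, for
each boundary point `q`, the size `ρ q` of a neighbourhood, and the tree `T q` of its further
subdivision. The node `cells` carries, for each unit vector `q` orthogonal to `p`, the size `ρ q` of the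
Whitney cells at `q`, and the tree `T q` of their further subdivision. -/
inductive Tree (m : ℕ) : Type
  | leaf (k : ℕ) (r : V m → ℝ → {x : ℝ // 0 < x}) (ω : {x : ℝ // 0 < x}) : Tree m
  | near (ρ : V m → {x : ℝ // 0 < x}) (T : V m → Tree m) : Tree m
  | cells (ρ : V m → {x : ℝ // 0 < x}) (T : V m → Tree m) : Tree m

/-- The functions `f_1, …, f_N` are controlled on `U` by a tree.

Leaf: for some index `i` and set `S` of indices, `δ ≤ |f_i| + ∑_{j ∈ S} |f_j|` on `U`, and the `f_j`,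
`j ∈ S`, vary by at most `δ / (4 N)` between points of `U` at which the values of `k` functions
`u_l ∘ ψ_l` differ by at most `ω`; here the `ψ_l` are automorphisms of the ball, and the `u_l` are
holomorphic on the ball, bounded by `1`, and scaled continuous with modulus `r`.

Near: the `f_j` are controlled by the tree `T q` on `U ∩ ball q (ρ q)` for all boundary points `q`.

Cells: for some automorphism `θ`, the functions `f_j ∘ θ ∘ mv p a` are controlled by the tree `T q` on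
the part of `B ∩ ball q (ρ q)` which `θ ∘ mv p a` maps into `U`, for all unit vectors `q` orthogonal to
`p` and all `|a| < 1`. -/
def Controlled {m N : ℕ} (p : V m) (δ : ℝ) : Tree m → (Fin N → V m → ℂ) → Set (V m) → Prop
  | .leaf k r ω, f, U => ∃ (i : Fin N) (S : Finset (Fin N)) (ψ φ : Fin k → V m → V m)
      (u : Fin k → V m → ℂ), (∀ l, IsAut (ψ l) (φ l)) ∧
      (∀ l, DifferentiableOn ℂ (u l) (ball 0 1)) ∧ (∀ l, ∀ z ∈ ball (0 : V m) 1, ‖u l z‖ ≤ 1) ∧
      (∀ l, Scaled p (fun q ε => (r q ε : ℝ)) (u l)) ∧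
      (∀ z ∈ U, δ ≤ ‖f i z‖ + ∑ j ∈ S, ‖f j z‖) ∧
      ∀ j ∈ S, ∀ z ∈ U, ∀ w ∈ U, (∀ l, ‖u l (ψ l z) - u l (ψ l w)‖ ≤ ω) →
        ‖f j z - f j w‖ ≤ δ / (4 * N)
  | .near ρ T, f, U => ∀ q : V m, ‖q‖ = 1 →
      Controlled p δ (T q) f {z | z ∈ U ∧ ‖z - q‖ < ρ q}
  | .cells ρ T, f, U => ∃ θ θ' : V m → V m, IsAut θ θ' ∧ ∀ q : V m, ‖q‖ = 1 →
      (inner ℂ p q : ℂ) = 0 → ∀ a : ℂ, ‖a‖ < 1 →
        Controlled p δ (T q) (fun j z => f j (θ (mv p a z)))
          {z | z ∈ ball (0 : V m) 1 ∧ ‖z - q‖ < ρ q ∧ θ (mv p a z) ∈ U}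

theorem aut_iff {m : ℕ} (ψ φ : V m → V m) : IsAut ψ φ ↔ Pool.Agent.TH310.Cor.Aut ψ φ :=
  ⟨fun h => ⟨h.d1, h.d2, h.m1, h.m2, h.i1, h.i2⟩, fun h => ⟨h.d1, h.d2, h.m1, h.m2, h.i1, h.i2⟩⟩

open Pool.Agent.TH223.Tr in
theorem goal {m : ℕ} (N : ℕ) {p : V m} (hp : ‖p‖ = 1) {δ : ℝ} (hδ : 0 < δ) (T : Tree m) :
    Goal p N δ (Controlled p δ T) := by
  induction T with
  | leaf k r ω =>
    refine Goal.mono (leaf_step Pool.Agent.W732.Cor.t_mv Pool.Agent.W732.Cor.t_ball
      Pool.Agent.W732.Cor.t_uni hp hδ k (fun q ε => (r q ε : ℝ)) (fun q ε _ => (r q ε).2) ω.2) ?_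
    rintro f U ⟨i, S, ψ, φ, u, hψ, hd, hb, hs, h1, h2⟩
    refine ⟨i, S, fun l z => u l (ψ l z), ⟨fun l _ => ⟨(hd l).comp (hψ l).d1 (hψ l).m1,
      fun z hz => hb l _ ((hψ l).m1 hz)⟩, fun l => ⟨ψ l, φ l, (aut_iff _ _).1 (hψ l),
      fun _ => ?_⟩⟩, h1, h2⟩
    have h3 : Pool.Agent.TH310.Cor.SCr p (fun q ε => (r q ε : ℝ)) (u l) := hs l
    refine h3.congr Pool.Agent.W732.Cor.t_mv hp (fun z hz => ?_)
    change u l (ψ l (φ l z)) = u l z
    rw [(hψ l).i2 z hz]
  | near ρ T ih =>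
    exact Goal.mono (near_step Pool.Agent.W732.Cor.t_mv hp hδ
      (fun q => (ρ q : ℝ)) (fun q => (ρ q).2) _ ih) (fun f U h => h)
  | cells ρ T ih =>
    refine Goal.mono (node_step Pool.Agent.W732.Cor.t_mv Pool.Agent.W732.Cor.t_ball hp hδ
      (fun q => (ρ q : ℝ)) (fun q => (ρ q).2) _ ih) ?_
    rintro f U ⟨θ, θ', hθ, h⟩
    exact ⟨θ, θ', (aut_iff _ _).1 hθ, fun q hq hpq a ha => h q hq hpq a (mem_ball_zero_iff.1 ha)⟩

/-- **Uniform corona theorem on the ball for data controlled by a tree of Whitney cells.** -/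
theorem result (m N : ℕ) (p : V m) (hp : ‖p‖ = 1) (δ : ℝ) (hδ : 0 < δ) (T : Tree m) :
    ∃ C : ℝ, ∀ f : Fin N → V m → ℂ, (∀ j, DifferentiableOn ℂ (f j) (ball 0 1)) →
      (∀ j, ∀ z ∈ ball (0 : V m) 1, ‖f j z‖ ≤ 1) →
      (∀ z ∈ ball (0 : V m) 1, δ ≤ ∑ j, ‖f j z‖) → Controlled p δ T f (ball 0 1) →
      ∃ g : Fin N → V m → ℂ, (∀ j, DifferentiableOn ℂ (g j) (ball 0 1)) ∧
        (∀ j, ∀ z ∈ ball (0 : V m) 1, ‖g j z‖ ≤ C) ∧
        ∀ z ∈ ball (0 : V m) 1, ∑ j, f j z * g j z = 1 := by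
  obtain ⟨C, hC⟩ := (goal N hp hδ T).final
  exact ⟨C, fun f h1 h2 h3 h4 => hC f (fun j => ⟨h1 j, h2 j⟩) h3 h4⟩

/-- tubes around the geodesic of `p` are invariant under the translations -/
theorem tube_mv {m : ℕ} {p : V m} (hp : ‖p‖ = 1) {a : ℂ} (ha : ‖a‖ < 1) {z : V m}
    (hz : z ∈ ball (0 : V m) 1) {R : ℝ}
    (h : ‖mv p a z - (inner ℂ p (mv p a z) : ℂ) • p‖ ^ 2 ≤
      R ^ 2 * (1 - ‖(inner ℂ p (mv p a z) : ℂ)‖ ^ 2)) :
    ‖z - (inner ℂ p z : ℂ) • p‖ ^ 2 ≤ R ^ 2 * (1 - ‖(inner ℂ p z : ℂ)‖ ^ 2) := by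
  have h1 : mv p a z - (inner ℂ p (mv p a z) : ℂ) • p =
      (((√(1 - ‖a‖ ^ 2) : ℝ) : ℂ) / (1 + starRingEnd ℂ a * inner ℂ p z)) •
        (z - (inner ℂ p z : ℂ) • p) := Pool.Agent.W721.Cor.Mv.perp_mv hp a z
  have h2 : (inner ℂ p (mv p a z) : ℂ) =
      ((inner ℂ p z : ℂ) + a) / (1 + starRingEnd ℂ a * inner ℂ p z) :=
    Pool.Agent.W721.Cor.Mv.inner_mv hp a z
  have hx := Pool.Agent.W721.Cor.Mv.inner_lt hp hz
  have hden := Pool.Agent.W721.Cor.Mv.den_ne ha hx
  have ha2 : 0 < 1 - ‖a‖ ^ 2 := by nlinarith [norm_nonneg a]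
  have hD : 0 < ‖1 + starRingEnd ℂ a * inner ℂ p z‖ ^ 2 := by
    have := norm_pos_iff.mpr hden
    positivity
  have h3 := Pool.Agent.W721.Cor.Mv.lemA a (inner ℂ p z)
  have h4 : ‖((√(1 - ‖a‖ ^ 2) : ℝ) : ℂ)‖ ^ 2 = 1 - ‖a‖ ^ 2 := by
    rw [Complex.norm_real, Real.norm_eq_abs, sq_abs, Real.sq_sqrt ha2.le]
  rw [h1, h2, norm_smul, norm_div, norm_div, mul_pow, div_pow, div_pow, h4] at h
  obtain ⟨D, hDdef⟩ : ∃ D : ℝ, D = ‖1 + starRingEnd ℂ a * inner ℂ p z‖ ^ 2 := ⟨_, rfl⟩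
  obtain ⟨t, ht⟩ : ∃ t : ℝ, t = ‖z - (inner ℂ p z : ℂ) • p‖ ^ 2 := ⟨_, rfl⟩
  obtain ⟨s, hs⟩ : ∃ s : ℝ, s = ‖(inner ℂ p z : ℂ)‖ ^ 2 := ⟨_, rfl⟩
  obtain ⟨b, hb⟩ : ∃ b : ℝ, b = ‖a‖ ^ 2 := ⟨_, rfl⟩
  obtain ⟨e, he⟩ : ∃ e : ℝ, e = ‖(inner ℂ p z : ℂ) + a‖ ^ 2 := ⟨_, rfl⟩
  rw [← hDdef, ← ht, ← hb, ← he] at h
  rw [← hDdef, ← hs, ← hb, ← he] at h3
  rw [← hDdef] at hD
  rw [← hb] at ha2
  rw [← ht, ← hs]
  have h5 : (1 - b) * t ≤ R ^ 2 * (D - e) := by
    have h6 := mul_le_mul_of_nonneg_right h hD.le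
    have h7 : (1 - b) / D * t * D = (1 - b) * t := by field_simp
    have h8 : R ^ 2 * (1 - e / D) * D = R ^ 2 * (D - e) := by field_simp
    rw [h7, h8] at h6
    exact h6
  rw [h3] at h5
  have h9 : (1 - b) * t ≤ (1 - b) * (R ^ 2 * (1 - s)) := by linarith
  exact le_of_mul_le_mul_left h9 ha2

/-- `X` is thin: for every boundary point `b` there is `R < 1` such that near `b` the set `X` lies in
the tube of radius `artanh R` around the geodesic `{x b : |x| < 1}`. -/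
def Thin {m : ℕ} (X : Set (V m)) : Prop :=
  X ⊆ ball 0 1 ∧ ∀ b : V m, ‖b‖ = 1 → ∃ R : ℝ, 0 ≤ R ∧ R < 1 ∧ ∀ᶠ z in 𝓝 b, z ∈ X →
    ‖z - (inner ℂ b z : ℂ) • b‖ ^ 2 ≤ R ^ 2 * (1 - ‖(inner ℂ b z : ℂ)‖ ^ 2)

/-- Example: corona data for which, outside of a thin set, one arbitrary function and functions which are
controlled by `k` functions attached to geodesics are enough; there is no condition on the thin set. -/
theorem thin_set (m N k : ℕ) (p : V m) (hp : ‖p‖ = 1) (δ : ℝ) (hδ : 0 < δ)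
    (r : V m → ℝ → ℝ) (hr : ∀ q ε, 0 < r q ε) (ω : ℝ) (hω : 0 < ω) (X : Set (V m)) (hX : Thin X) :
    ∃ C : ℝ, ∀ (f : Fin N → V m → ℂ) (i : Fin N) (S : Finset (Fin N)) (ψ φ : Fin k → V m → V m)
      (u : Fin k → V m → ℂ), (∀ j, DifferentiableOn ℂ (f j) (ball 0 1)) →
      (∀ j, ∀ z ∈ ball (0 : V m) 1, ‖f j z‖ ≤ 1) →
      (∀ z ∈ ball (0 : V m) 1, δ ≤ ∑ j, ‖f j z‖) → (∀ l, IsAut (ψ l) (φ l)) →
      (∀ l, DifferentiableOn ℂ (u l) (ball 0 1)) → (∀ l, ∀ z ∈ ball (0 : V m) 1, ‖u l z‖ ≤ 1) →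
      (∀ l, Scaled p r (u l)) →
      (∀ z ∈ ball (0 : V m) 1, z ∉ X → δ ≤ ‖f i z‖ + ∑ j ∈ S, ‖f j z‖) →
      (∀ j ∈ S, ∀ z ∈ ball (0 : V m) 1, ∀ w ∈ ball (0 : V m) 1,
        (∀ l, ‖u l (ψ l z) - u l (ψ l w)‖ ≤ ω) → ‖f j z - f j w‖ ≤ δ / (4 * N)) →
      ∃ g : Fin N → V m → ℂ, (∀ j, DifferentiableOn ℂ (g j) (ball 0 1)) ∧
        (∀ j, ∀ z ∈ ball (0 : V m) 1, ‖g j z‖ ≤ C) ∧
        ∀ z ∈ ball (0 : V m) 1, ∑ j, f j z * g j z = 1 := by
  classical
  have hex : ∀ b : V m, ∃ (R s : ℝ), 0 ≤ R ∧ R < 1 ∧ 0 < s ∧ (‖b‖ = 1 → ∀ z, ‖z - b‖ < s → z ∈ X →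
      ‖z - (inner ℂ b z : ℂ) • b‖ ^ 2 ≤ R ^ 2 * (1 - ‖(inner ℂ b z : ℂ)‖ ^ 2)) := by
    intro b
    by_cases hb : ‖b‖ = 1
    · obtain ⟨R, hR0, hR1, hR⟩ := hX.2 b hb
      obtain ⟨s, hs, h1⟩ := Metric.eventually_nhds_iff.1 hR
      exact ⟨R, s, hR0, hR1, hs, fun _ z hz => h1 (by rw [dist_eq_norm]; exact hz)⟩
    · exact ⟨0, 1, le_rfl, one_pos, one_pos, fun h => absurd h hb⟩
  choose R s hR0 hR1 hs hRs using hex
  obtain ⟨C, hC⟩ := result m N p hp δ hδ (Tree.near (fun b => ⟨s b, hs b⟩) fun b =>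
    Tree.cells (fun _ => ⟨(1 - R b) / 2, by linarith [hR1 b]⟩) fun _ =>
      Tree.leaf k (fun q ε => ⟨r q ε, hr q ε⟩) ⟨ω, hω⟩)
  refine ⟨C, fun f i S ψ φ u hf hfb hlow hψ hu hub hus hoff hosc => hC f hf hfb hlow ?_⟩
  intro b hb
  obtain ⟨W, hW⟩ := Pool.Agent.TH310.Cor.exists_unitary hp hb
  have AW : IsAut (W : V m → V m) (W.symm : V m → V m) :=
    (aut_iff _ _).2 (Pool.Agent.TH310.Cor.aut_unitary W)
  refine ⟨W, W.symm, AW, fun q hq hpq a ha => ?_⟩
  have Amv : IsAut (mv p a) (mv p (-a)) :=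
    (aut_iff _ _).2 (Pool.Agent.TH310.Cor.aut_mv Pool.Agent.W732.Cor.t_mv hp
      (mem_ball_zero_iff.2 ha))
  have A : IsAut (fun z => W (mv p a z)) (fun z => mv p (-a) (W.symm z)) :=
    (aut_iff _ _).2 (((aut_iff _ _).1 AW).comp ((aut_iff _ _).1 Amv))
  refine ⟨i, S, fun l z => ψ l (W (mv p a z)), fun l z => mv p (-a) (W.symm (φ l z)), u,
    fun l => (aut_iff _ _).2 (((aut_iff _ _).1 (hψ l)).comp ((aut_iff _ _).1 A)), hu, hub, hus,
    ?_, ?_⟩
  · rintro z ⟨hz, hzq, hzU, hzb⟩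
    refine hoff _ (A.m1 hz) (fun hzX => ?_)
    have h1 := hRs b hb _ hzb hzX
    have h2 : (inner ℂ b (W (mv p a z)) : ℂ) = inner ℂ p (mv p a z) := by
      rw [← hW, W.inner_map_map]
    have h3 : W (mv p a z) - (inner ℂ b (W (mv p a z)) : ℂ) • b =
        W (mv p a z - (inner ℂ p (mv p a z) : ℂ) • p) := by
      rw [h2, map_sub, map_smul, hW]
    rw [h3, W.norm_map, h2] at h1
    have h4 := tube_mv hp ha hz h1
    have h5 : ‖z - (inner ℂ p z : ℂ) • p‖ ≤ R b := by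
      have h6 : ‖z - (inner ℂ p z : ℂ) • p‖ ^ 2 ≤ R b ^ 2 := by
        have h7 := sq_nonneg ‖(inner ℂ p z : ℂ)‖
        have h8 := sq_nonneg (R b)
        nlinarith
      exact le_of_sq_le_sq h6 (hR0 b)
    have h6 : q = (z - (inner ℂ p z : ℂ) • p) - ((z - q) - (inner ℂ p (z - q) : ℂ) • p) := by
      rw [inner_sub_right, hpq, sub_zero]
      module
    have h7 : ‖(z - q) - (inner ℂ p (z - q) : ℂ) • p‖ ≤ ‖z - q‖ := by
      have h8 := Pool.Agent.W721.Cor.Mv.norm_dec hp (z - q)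
      have h9 := sq_nonneg ‖(inner ℂ p (z - q) : ℂ)‖
      exact le_of_sq_le_sq (by linarith) (norm_nonneg _)
    have h8 := norm_sub_le (z - (inner ℂ p z : ℂ) • p) ((z - q) - (inner ℂ p (z - q) : ℂ) • p)
    rw [← h6, hq] at h8
    have h9 : ‖z - q‖ < (1 - R b) / 2 := hzq
    linarith [hR1 b]
  · rintro j hj z ⟨hz, -, -, -⟩ w ⟨hw, -, -, -⟩ hl
    exact hosc j hj _ (A.m1 hz) _ (A.m1 hw) hl

end Pool.Agent.Results.MP_ca0fc2_an.IteratedLocalization
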