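import Mathlib
import Pool.Agent.TH310.Cor.Whit2
import Pool.Agent.W732.Cor.All

/-!
# Localisation of the corona problem on the ball to Whitney cells along a complex geodesic

`B` is the unit ball of `ℂ^m`, `p` a unit vector, `mv p a` (`|a| < 1`) the automorphisms of `B` which
translate the complex geodesic through `0` and `p`. The sets `mv p a (B ∩ ball q ρ)`, where `q` is a
unit vector orthogonal to `p`, are the cells at the boundary point `mv p a q` whose size is, in the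
non-isotropic scale of `B`, a fixed proportion of the distance from this point to the circle
`{e^{iθ} p}`: they form a Whitney decomposition of `B`, relative to this circle, outside of the points
of `B` at bounded Bergman distance from the geodesic.

`result`, first part: for corona data `F_i = (F_{i,1}, …, F_{i,N})`, `i ∈ I`, bounded by `1`, with
`∑ |F_{i,j}| ≥ δ` on `B`, the Bezout equations have uniformly bounded solutions on `B` if and only if
they have uniformly bounded holomorphic solutions on the single cells (for each `q` a radius and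
a bound independent of `a` and `i`). No compatibility of the local solutions is required. Second part:
the same at a boundary point `p`: uniformly bounded solutions near `p` exist if and only if uniformly
bounded solutions exist on the cells near `p` (parameters `a` near `1`); so the localisation can be
iterated.

`cellwise`: if on each cell at least one of the functions `F_j` is bounded from below in modulus, then
the Bezout equation has a solution with uniform bounds. `one_per_cell`: the same if on each cell all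
functions but one, which is arbitrary and may depend on the cell, have small oscillation.

Proof. Local-to-global lemma (`Pool.Agent.TH310.Cor.lgV`): for bounded holomorphic `g` on
`B ∩ {|⟨q, z⟩ - 1| < η}` there is a bounded holomorphic `G` on `B` with `G - g → 0` at `q`,
uniformly in `g`: solve a `∂̄`-equation in the variable `w = ⟨q, z⟩` for the cutoff of `g`, with
values of `g` transported between the fibres by `y ↦ (1 - |ζ|^2) / (1 - conj ζ w) y`, which maps the
fibre of `B` over `w` into the fibre over `ζ`. If uniform solvability fails, then slice localisation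
(`S_ball`) gives a character `χ` of the Banach algebra of bounded families which annihilates the
transported data and lies over a point `q` orthogonal to `p`; the local solutions near `q`, corrected
by the lemma, give elements of the algebra which solve the equation at `χ`, a contradiction.
-/

set_option autoImplicit false

open Metric Set

namespace Pool.Agent.Results.MP_ca0fc2_an.WhitneyLocalization

/-- `ℂ^m` with the Euclidean norm. -/
abbrev V (m : ℕ) := EuclideanSpace ℂ (Fin m)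

/-- The automorphisms of the ball (`‖p‖ = 1`, `|a| < 1`) which translate the complex geodesic
through `0` and `p`: `⟨p, mv p a z⟩ = (⟨p, z⟩ + a) / (1 + conj a ⟨p, z⟩)`. -/
noncomputable def mv {m : ℕ} (p : V m) (a : ℂ) (z : V m) : V m :=
  (1 / (1 + starRingEnd ℂ a * inner ℂ p z)) •
    (((inner ℂ p z : ℂ) + a) • p + ((√(1 - ‖a‖ ^ 2) : ℝ) : ℂ) • (z - (inner ℂ p z : ℂ) • p))

/-- Uniform solvability on the open set `U`: for all `i`, the equation `∑ F i j * g j = 1` has
holomorphic solutions on `U`, bounded by a constant which does not depend on `i`. -/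
def UnifSolv {m N : ℕ} {I : Type} (U : Set (V m)) (F : I → Fin N → V m → ℂ) : Prop :=
  ∃ C : ℝ, ∀ i, ∃ g : Fin N → V m → ℂ, (∀ j, DifferentiableOn ℂ (g j) U) ∧
    (∀ j, ∀ z ∈ U, ‖g j z‖ ≤ C) ∧ ∀ z ∈ U, ∑ j, F i j z * g j z = 1

/-- Uniform solvability near the boundary point `q`. -/
def UnifSolvNear {m N : ℕ} {I : Type} (q : V m) (F : I → Fin N → V m → ℂ) : Prop :=
  ∃ ρ : ℝ, 0 < ρ ∧ UnifSolv (ball 0 1 ∩ ball q ρ) F

theorem near_iff {m N : ℕ} {I : Type} (q : V m) (F : I → Fin N → V m → ℂ) :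
    UnifSolvNear q F ↔ Pool.Agent.TH310.Cor.SolvL F q :=
  ⟨fun ⟨ρ, hρ, C, h⟩ => ⟨C, ρ, hρ, h⟩, fun ⟨C, ρ, hρ, h⟩ => ⟨ρ, hρ, C, h⟩⟩

/-- **Whitney localisation of the corona problem on the ball.** -/
theorem result (m N : ℕ) (p : V m) (hp : ‖p‖ = 1) (I : Type) (F : I → Fin N → V m → ℂ)
    (hF : ∀ i j, DifferentiableOn ℂ (F i j) (ball 0 1))
    (hb : ∀ i j, ∀ z ∈ ball (0 : V m) 1, ‖F i j z‖ ≤ 1) (δ : ℝ) (hδ : 0 < δ) :
    ((∀ i, ∀ z ∈ ball (0 : V m) 1, δ ≤ ∑ j, ‖F i j z‖) →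
      (UnifSolv (ball 0 1) F ↔
        ∀ q : V m, ‖q‖ = 1 → (inner ℂ p q : ℂ) = 0 →
          UnifSolvNear q (fun (x : I × {a : ℂ // ‖a‖ < 1}) j z => F x.1 j (mv p x.2 z)))) ∧
    (∀ ρ : ℝ, 0 < ρ → (∀ i, ∀ z ∈ ball (0 : V m) 1 ∩ ball p ρ, δ ≤ ∑ j, ‖F i j z‖) →
      (UnifSolvNear p F ↔
        ∀ q : V m, ‖q‖ = 1 → (inner ℂ p q : ℂ) = 0 → ∃ κ : ℝ, 0 < κ ∧
          UnifSolvNear q (fun (x : I × {a : ℂ // ‖a‖ < 1 ∧ ‖1 - a‖ < κ}) j z =>
            F x.1 j (mv p x.2 z)))) := by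
  have hmv := Pool.Agent.W732.Cor.t_mv
  have hball := Pool.Agent.W732.Cor.t_ball
  have hH : ∀ i j, Pool.Agent.TH310.Cor.HB (F i j) := fun i j => ⟨hF i j, hb i j⟩
  refine ⟨fun hlow => ⟨fun h q hq hpq => ?_, fun h => ?_⟩, fun ρ hρ hlow => ⟨fun h q hq hpq => ?_,
    fun h => ?_⟩⟩
  · obtain ⟨C, r, hr, h1⟩ := Pool.Agent.TH310.Cor.whit1' hmv hp (F := F) h q
    refine ⟨r, hr, C, fun x => ?_⟩
    exact h1 (x.1, ⟨x.2.1, mem_ball_zero_iff.2 x.2.2⟩)
  · refine Pool.Agent.TH310.Cor.whit1 hmv hball hp hH hδ hlow fun q hq hpq => ?_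
    obtain ⟨r, hr, C, h1⟩ := h q hq hpq
    refine ⟨C, r, hr, fun x => ?_⟩
    exact h1 (x.1, ⟨x.2.1, mem_ball_zero_iff.1 x.2.2⟩)
  · obtain ⟨κ, hκ, C, r, hr, h1⟩ :=
      Pool.Agent.TH310.Cor.whit2' hmv hp ((near_iff p F).1 h) q hpq
    refine ⟨κ, hκ, r, hr, C, fun x => ?_⟩
    exact h1 (x.1, ⟨x.2.1, mem_ball_zero_iff.2 x.2.2.1, x.2.2.2⟩)
  · refine (near_iff p F).2 (Pool.Agent.TH310.Cor.whit2 hmv hball hp hH hδ hρ hlow
      fun q hq hpq => ?_)
    obtain ⟨κ, hκ, r, hr, C, h1⟩ := h q hq hpq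
    refine ⟨κ, hκ, C, r, hr, fun x => ?_⟩
    exact h1 (x.1, ⟨x.2.1, mem_ball_zero_iff.1 x.2.2.1, x.2.2.2⟩)

/-- If on each cell at least one of the functions is bounded from below, then the equation is
solvable, with uniform bounds. -/
theorem cellwise (m N : ℕ) (p : V m) (hp : ‖p‖ = 1) (ρ ε : V m → ℝ) (hρ : ∀ q, 0 < ρ q)
    (hε : ∀ q, 0 < ε q) (δ : ℝ) (hδ : 0 < δ) :
    ∃ C : ℝ, ∀ F : Fin N → V m → ℂ, (∀ j, DifferentiableOn ℂ (F j) (ball 0 1)) →
      (∀ j, ∀ z ∈ ball (0 : V m) 1, ‖F j z‖ ≤ 1) →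
      (∀ z ∈ ball (0 : V m) 1, δ ≤ ∑ j, ‖F j z‖) →
      (∀ q : V m, ‖q‖ = 1 → (inner ℂ p q : ℂ) = 0 → ∀ a : ℂ, ‖a‖ < 1 →
        ∃ j, ∀ z ∈ ball (0 : V m) 1 ∩ ball q (ρ q), ε q ≤ ‖F j (mv p a z)‖) →
      ∃ g : Fin N → V m → ℂ, (∀ j, DifferentiableOn ℂ (g j) (ball 0 1)) ∧
        (∀ j, ∀ z ∈ ball (0 : V m) 1, ‖g j z‖ ≤ C) ∧
        ∀ z ∈ ball (0 : V m) 1, ∑ j, F j z * g j z = 1 := by
  classical
  let I : Type := {F : Fin N → V m → ℂ // (∀ j, DifferentiableOn ℂ (F j) (ball 0 1)) ∧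
      (∀ j, ∀ z ∈ ball (0 : V m) 1, ‖F j z‖ ≤ 1) ∧
      (∀ z ∈ ball (0 : V m) 1, δ ≤ ∑ j, ‖F j z‖) ∧
      (∀ q : V m, ‖q‖ = 1 → (inner ℂ p q : ℂ) = 0 → ∀ a : ℂ, ‖a‖ < 1 →
        ∃ j, ∀ z ∈ ball (0 : V m) 1 ∩ ball q (ρ q), ε q ≤ ‖F j (mv p a z)‖)}
  obtain ⟨C, hC⟩ := (((result m N p hp I (fun i => i.1) (fun i => i.2.1) (fun i => i.2.2.1) δ hδ).1
    (fun i => i.2.2.2.1)).2 (by
      intro q hq hpq
      refine ⟨ρ q, hρ q, 1 / ε q, ?_⟩
      rintro ⟨⟨F, hF, hFb, hFl, hFc⟩, a, ha⟩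
      obtain ⟨j₀, hj₀⟩ := hFc q hq hpq a ha
      have hne : ∀ z ∈ ball (0 : V m) 1 ∩ ball q (ρ q), F j₀ (mv p a z) ≠ 0 := by
        intro z hz h0
        have h1 := hj₀ z hz
        rw [h0, norm_zero] at h1
        linarith [hε q]
      have hA := Pool.Agent.TH310.Cor.aut_mv Pool.Agent.W732.Cor.t_mv hp
        (a := a) (mem_ball_zero_iff.2 ha)
      have hεq := hε q
      refine ⟨fun j z => if j = j₀ then (F j₀ (mv p a z))⁻¹ else 0, ?_, ?_, ?_⟩
      · intro j
        by_cases hj : j = j₀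
        · simp only [if_pos hj]
          refine DifferentiableOn.inv ?_ hne
          exact ((hF j₀).comp hA.d1 hA.m1).mono inter_subset_left
        · simp only [if_neg hj]
          exact differentiableOn_const _
      · intro j z hz
        by_cases hj : j = j₀
        · simp only [if_pos hj]
          rw [norm_inv, ← one_div]
          exact one_div_le_one_div_of_le hεq (hj₀ z hz)
        · simp only [if_neg hj]
          rw [norm_zero]
          positivity
      · intro z hz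
        simp only [mul_ite, mul_zero]
        rw [Finset.sum_ite_eq' Finset.univ j₀, if_pos (Finset.mem_univ _)]
        exact mul_inv_cancel₀ (hne z hz)))
  exact ⟨C, fun F h1 h2 h3 h4 => hC ⟨F, h1, h2, h3, h4⟩⟩

/-- If on each cell all functions but one (which may depend on the cell) have small oscillation,
then the equation is solvable, with uniform bounds. -/
theorem one_per_cell (m N : ℕ) (p : V m) (hp : ‖p‖ = 1) (r : V m → ℝ → ℝ)
    (hr : ∀ q ε, 0 < ε → 0 < r q ε) (δ : ℝ) (hδ : 0 < δ) :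
    ∃ C : ℝ, ∀ F : Fin N → V m → ℂ, (∀ j, DifferentiableOn ℂ (F j) (ball 0 1)) →
      (∀ j, ∀ z ∈ ball (0 : V m) 1, ‖F j z‖ ≤ 1) →
      (∀ z ∈ ball (0 : V m) 1, δ ≤ ∑ j, ‖F j z‖) →
      (∀ q : V m, ‖q‖ = 1 → (inner ℂ p q : ℂ) = 0 → ∀ a : ℂ, ‖a‖ < 1 → ∀ ε : ℝ, 0 < ε →
        ∃ j₀, ∀ j, j ≠ j₀ → ∀ z ∈ ball (0 : V m) 1 ∩ ball q (r q ε),
          ∀ w ∈ ball (0 : V m) 1 ∩ ball q (r q ε), ‖F j (mv p a z) - F j (mv p a w)‖ ≤ ε) →
      ∃ g : Fin N → V m → ℂ, (∀ j, DifferentiableOn ℂ (g j) (ball 0 1)) ∧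
        (∀ j, ∀ z ∈ ball (0 : V m) 1, ‖g j z‖ ≤ C) ∧
        ∀ z ∈ ball (0 : V m) 1, ∑ j, F j z * g j z = 1 := by
  classical
  obtain ⟨ε, hε⟩ : ∃ ε : ℝ, ε = δ / (4 * (N + 1)) := ⟨_, rfl⟩
  have hN0 : (0 : ℝ) ≤ N := Nat.cast_nonneg N
  have hε0 : 0 < ε := by rw [hε]; positivity
  have hNε : 4 * (N + 1) * ε = δ := by rw [hε]; field_simp
  obtain ⟨C, hC⟩ := cellwise m N p hp (fun q => r q ε) (fun _ => ε) (fun q => hr q ε hε0)
    (fun _ => hε0) δ hδ
  refine ⟨C, fun F hF hb hlow hosc => hC F hF hb hlow fun q hq hpq a ha => ?_⟩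
  obtain ⟨j₀, hj₀⟩ := hosc q hq hpq a ha ε hε0
  have hA := Pool.Agent.TH310.Cor.aut_mv Pool.Agent.W732.Cor.t_mv hp
    (a := a) (mem_ball_zero_iff.2 ha)
  have hmaps : ∀ z ∈ ball (0 : V m) 1, mv p a z ∈ ball (0 : V m) 1 := fun z hz => hA.m1 hz
  obtain ⟨s, hs⟩ : ∃ s : ℝ, s = min (r q ε) 1 := ⟨_, rfl⟩
  have hs0 : 0 < s := by rw [hs]; exact lt_min (hr q ε hε0) one_pos
  have hsr : s ≤ r q ε := by rw [hs]; exact min_le_left _ _
  have hs1 : s ≤ 1 := by rw [hs]; exact min_le_right _ _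
  obtain ⟨w, hw⟩ : ∃ w : V m, w = ((1 - s / 2 : ℝ) : ℂ) • q := ⟨_, rfl⟩
  have hwB : w ∈ ball (0 : V m) 1 ∩ ball q (r q ε) := by
    refine ⟨?_, ?_⟩
    · rw [mem_ball_zero_iff, hw, norm_smul, hq, Complex.norm_real,
        Real.norm_of_nonneg (by linarith)]
      linarith
    · rw [mem_ball, dist_eq_norm]
      have h3 : w - q = (-(s / 2 : ℝ) : ℂ) • q := by
        rw [hw]
        push_cast
        module
      rw [h3, norm_smul, hq, norm_neg, Complex.norm_real, Real.norm_of_nonneg (by linarith)]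
      linarith
  by_cases hex : ∃ j, j ≠ j₀ ∧ 2 * ε ≤ ‖F j (mv p a w)‖
  · obtain ⟨j, hj, hj2⟩ := hex
    refine ⟨j, fun z hz => ?_⟩
    have h1 := hj₀ j hj z hz w hwB
    have h2 := norm_sub_norm_le (F j (mv p a w)) (F j (mv p a z))
    rw [norm_sub_rev] at h2
    linarith
  · push Not at hex
    refine ⟨j₀, fun z hz => ?_⟩
    have h1 := hlow _ (hmaps z hz.1)
    rw [← Finset.add_sum_erase Finset.univ _ (Finset.mem_univ j₀)] at h1
    have h2 : ∀ j ∈ Finset.univ.erase j₀, ‖F j (mv p a z)‖ ≤ 3 * ε := by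
      intro j hj
      have hj' := Finset.ne_of_mem_erase hj
      have h3 := hj₀ j hj' z hz w hwB
      have h4 := hex j hj'
      have h5 := norm_sub_norm_le (F j (mv p a z)) (F j (mv p a w))
      linarith
    have h3 := Finset.sum_le_sum h2
    rw [Finset.sum_const, nsmul_eq_mul] at h3
    have h4 : ((Finset.univ.erase j₀).card : ℝ) ≤ N := by
      have h5 := Finset.card_erase_le (s := (Finset.univ : Finset (Fin N))) (a := j₀)
      rw [Finset.card_univ, Fintype.card_fin] at h5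
      exact_mod_cast h5
    have h5 : ((Finset.univ.erase j₀).card : ℝ) * (3 * ε) ≤ N * (3 * ε) := by gcongr
    nlinarith

end Pool.Agent.Results.MP_ca0fc2_an.WhitneyLocalization
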